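import Pool.Agent.Q128.NS.Two
import Pool.Agent.Q128.NS.Seeds

set_option autoImplicit false

/-!
# Non-signalling local algorithms on 2-to-1 games with perfect completeness

An instance (`Inst`) has vertices on two sides and constraints, each given by a map of the label set
`Fin 2 × ZMod q` (of size `2 q`, the same on both sides) to itself, from vertices of the side `true`
(the side `U` of the problem) to vertices of the side `false` (the side `V` of the problem).

* For every `ε` there is a degree bound `Δ` such that for every large `q` there are arbitrarily large
  pairs of 2-to-1 games `X`, `X'` on the same vertices such that any two labels of a vertex are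
  identified by at most one of its constraints, `X` has value `1`, `X'` has value at most `ε`, and up
  to radius `c log n` every vertex has isomorphic views in `X` and in `X'`.
* For every non-signalling process (`Process`) of locality at most `c log n` the random labelling of
  `X` satisfies more than a fraction `ε` of the constraints with probability at most `n ^ (-c)`. In
  such a process the labels of different vertices may be correlated in any way; it is only required
  that the joint law of the labels of a tuple of vertices depends only on the isomorphism type of the
  radius-`r` view of the tuple. So local algorithms with shared randomness, and quantum local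
  algorithms, are included.
* Every randomised local algorithm with independent seeds is a non-signalling process.

Proof. `X'` consists of `q` copies of a base game on a graph of bounded degree without short cycles,
with random shifts, in which no labelling satisfies more than a fraction `ε / 2` of the constraints;
`X` is the cyclic cover defined by the shifts, whose sheets give a labelling satisfying all
constraints. The joint law of the labels at the ends of `k` far apart constraints is the same in `X`
and in `X'`; so the `k`-th moment of the number of satisfied constraints is nearly at most that in
`X'`, and `k` may be taken of order `log n`.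
-/

namespace Pool.Agent.Results.MP_ec946a_lc.NonSignallingAlgorithms

open Pool.Agent.Q128.NS hiding Separating Satisfiable numSat
open Pool.Agent.Q128.NS.Two

theorem result :
    (∀ ε : ℝ, 0 < ε → ε ≤ 1 → ∃ Δ q0 : ℕ, ∀ q : ℕ, q0 ≤ q → ∃ c : ℝ, 0 < c ∧ ∀ N : ℕ,
      ∃ (V : Type) (_ : Fintype V) (X X' : Inst (Fin 2 × ZMod q → Fin 2 × ZMod q) V),
        N ≤ Fintype.card V ∧
        -- a 2-to-1 game of value `1`
        TwoToOne X ∧ Separating X ∧ Satisfiable X ∧ 0 < numCon X ∧
        (∀ v, (X.gr.neighborSet v).ncard ≤ Δ) ∧
        -- a 2-to-1 game of value at most `ε`
        (TwoToOne X' ∧ Separating X' ∧ numCon X' = numCon X ∧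
          (∀ v, (X'.gr.neighborSet v).ncard ≤ Δ) ∧ ∀ L, (numSat X' L : ℝ) ≤ ε * numCon X') ∧
        ∀ r : ℕ, (r : ℝ) ≤ c * Real.log (Fintype.card V) →
          -- the same views
          (∀ v : V, SameView r X (fun _ : Fin 1 => v) X' (fun _ : Fin 1 => v)) ∧
          -- non-signalling processes fail on the game of value `1`
          ∀ P : Process (Fin 2 × ZMod q → Fin 2 × ZMod q) (Fin 2 × ZMod q) V r,
            pr (P.law X) (fun L => ε * numCon X < numSat X L) ≤ (Fintype.card V : ℝ) ^ (-c)) ∧
    -- randomised local algorithms are non-signalling
    ∀ (C A S V : Type) [Finite A] [Finite S] [Finite V] (r : ℕ) (R : LocalRule C A S r)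
      (p : A → ℝ), IsDistribution p → ∃ P : Process C S V r,
        ∀ (X : Inst C V) (E : (V → S) → Prop),
          pr (P.law X) E = pr (seeds p) (fun ω => E (R.out X ω)) :=
  ⟨fun ε hε hε1 => Pool.Agent.Q128.NS.Two.main ε hε hε1,
    fun _ _ _ _ _ _ _ _ R _ hp => ofSeeds R hp⟩

end Pool.Agent.Results.MP_ec946a_lc.NonSignallingAlgorithms
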