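import Pool.Agent.Q226.SEN.Proj

/-!
# 2-to-1 games with perfect completeness: reductions with unate bits need exponential size

A reduction writes down its games bit by bit: `T` is a finite type of possible constraints (with
vertices `src e`, `tgt e` and a map `π e` between the label sets, all arbitrary; repeated constraints
are allowed), and a game is a subset of `T`. The reductions are randomised (the coins are a uniform
element `ρ` of a finite type `R`), they ask `k` queries nonadaptively, and evaluate the answers by an
arbitrary function; many-one reductions are the case `k = 1`. All queries have `m` constraints.
`Reduces` says that for every oracle which is right on the games with `m` constraints of value `1`,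
and of value at most `δ` (its other answers are arbitrary), and for every input `x` of `N` bits the
output is the parity of `x` with probability at least `1 / 2 + γ`.

(1) If every bit of the queries is a unate function of the input (in each coordinate nondecreasing or
nonincreasing, for example monotone, or a linear threshold function; of arbitrary complexity), then
the number of the possible constraints is exponential: `|T| ≥ m exp (2 γ ^ 2 (1 - δ) ^ 2 N / k ^ 2)`.
This holds for all maps `π e`, in particular for 2-to-1 games, all alphabets, and all `δ < 1`.

(2) Up to the constant in the exponent this is optimal for many-one reductions: there are reductions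
with unate bits and `|T| = 2 ^ N m` from parity to games of value `1` or `1 / p`, with bijective maps
on `p` labels and `m = p` constraints.

So for no alphabet and no `δ < 1` is the problem of the 2-to-1 conjecture `NP`-hard (not even hard for
parity) under polynomial size randomised reductions with unate bits and `N ^ (1 / 2 - c)` nonadaptive
queries, of unbounded complexity. Without the gap it is `NP`-complete under projections (which are
monotone), see our hand-in `FormulaReductions`.

Proof: answer the queries by the oracle for value at least `θ`, for a random threshold `θ` between `δ`
and `1`; if one bit of the input is flipped, some answer changes for every `θ`, so the sum of the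
changes of the values is at least `1 - δ`. So the bits have a large total sensitivity at their ones; for
a unate bit it is bounded by exponential moments and Gibbs' inequality. The theorem for unique games is
a part of our hand-in `MP_325f1f_lc.SensitiveReductions`; the arguments do not depend on the kind of the
constraints.
-/

set_option autoImplicit false

namespace Pool.Agent.Results.MP_ec946a_lc.UnateReductions

open Finset Pool.Agent.Q226.SEN
open scoped Classical

/-- (1) The lower bound for every reduction `query`, `eval` from the parity of `N` bits to projection
games with `m ≥ 1` constraints of value `1`, or at most `δ`, with `k` queries, coins `R` and advantage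
`γ ≥ 0`, if the bits of the queries are unate. (2) Optimal many-one reductions. The definitions
(`Reduces`, `ProjSat`, `size`, `Unate`) are in `Pool/Agent/Q226/SEN/Defs.lean` and
`Pool/Agent/Q226/SEN/Proj.lean`. -/
theorem result :
    (∀ (N k m : ℕ) (T U V A B R : Type) [Fintype T] [Fintype R] [Nonempty R] (src : T → U)
      (tgt : T → V) (π : T → A → B) (δ γ : ℝ)
      (query : R → Fin k → (Fin N → Bool) → T → Bool) (eval : R → (Fin k → Bool) → Bool),
      1 ≤ m → 0 ≤ δ → δ ≤ 1 → 0 ≤ γ → (∀ ρ j x, size (query ρ j x) = m) →
      Reduces (ProjSat src tgt π) 1 δ m query eval γ →
      (∀ ρ j e, Unate fun x => query ρ j x e) →
      2 * (γ * (1 - δ)) ^ 2 * N ≤ k ^ 2 * Real.log (Fintype.card T / m)) ∧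
    ∀ N p : ℕ, 1 ≤ p →
      ∃ (T A : Type) (_ : Fintype T) (src tgt : T → Unit) (π : T → A → A)
        (g : (Fin N → Bool) → T → Bool),
        Nat.card A = p ∧ (∀ e, Function.Bijective (π e)) ∧ Fintype.card T = 2 ^ N * p ∧
        (∀ x, size (g x) = p) ∧ (∀ e, Unate fun x => g x e) ∧
        Reduces (k := 1) (ProjSat src tgt π) 1 (1 / p) p (fun (_ : Unit) _ => g)
          (fun _ u => !u 0) (1 / 2) := by
  refine ⟨?_, proj_unate_upper⟩
  intro N k m T U V A B R _ _ _ src tgt π δ γ query eval hm hδ hδ1 hγ hsize hred hu
  exact unate_main _ hδ hδ1 hm query eval γ hγ hsize hred hu

end Pool.Agent.Results.MP_ec946a_lc.UnateReductions
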